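import Pool.Agent.Lib.MP_2c6a5a_lc.NC.Zs

/-! The inequality for lists of zero blocks filtered by a hash block. -/

namespace Pool.Agent.Lib.MP_2c6a5a_lc.RO

open MeasureTheory Set
open scoped ENNReal

variable {l m a r s t n K : ℕ} {J : Finset L} {P : Set Om}

theorem fd_and (p : Prop) {E : Set Om} (h : FD E) : FD {A | p ∧ A ∈ E} :=
  let ⟨S, h⟩ := h
  ⟨S, fun A B e c => ⟨c.1, h A B e c.2⟩⟩

theorem hash_fib (hJ : Len m J) (f : Finset L → L) (p : Finset L → Prop) (Q : Finset L → Set Om)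
    (fQ : ∀ X, FD (Q X))
    (h : ∀ X ⊆ J, p X → m + l ≤ (f X).length ∧ Dep (blk r (f X) : Set L)ᶜ (Q X)) :
    mu {A | p (zs l J A) ∧ A ∈ Z (blk r (f (zs l J A))) ∩ Q (zs l J A)} =
      2⁻¹ ^ r * mu {A | p (zs l J A) ∧ A ∈ Q (zs l J A)} := by
  refine fib_mul (E := fun X => {A | p X ∧ A ∈ Z (blk r (f X)) ∩ Q X})
    (E' := fun X => {A | p X ∧ A ∈ Q X}) (fun X => fd_and _ ((fd_Z _).inter (fQ X)))
    (fun X => fd_and _ (fQ X)) _ fun X c => ?_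
  by_cases d : p X
  · obtain ⟨h1, h2⟩ := h X c d
    have := indep (dep_Z (blk r (f X))) ((((dep_zs (l := l) (J := J) (· = X)).mono
      (reg_lo hJ le_rfl)).out h1).inter h2) (fd_Z _) ((fd_zs (· = X)).inter (fQ X))
    rw [mu_Z, card_blk, inter_left_comm] at this
    simpa only [d, true_and, ofPred_mem_eq] using this
  · simp [d]

theorem arith {Λ : ℕ} (hΛ : 16 ≤ Λ) {u₀ u₁ φ β B T₀ T₁ T₂ : ℝ≥0∞} (f1 : u₀ ≠ ∞) (f2 : u₁ ≠ ∞)
    (f3 : φ ≠ ∞) (f4 : β ≠ ∞) (f5 : B ≠ ∞) (f6 : T₀ ≠ ∞) (f7 : T₁ ≠ ∞) (f8 : T₂ ≠ ∞)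
    (H0 : (4 * Λ ^ 5) ^ 2 * (Λ * u₀) ≤ 4 * ((4 * Λ ^ 5) ^ 2 * φ + (Λ ^ 4 + 1) ^ 2 * T₁))
    (H1 : (4 * Λ ^ 5) ^ 2 * (Λ * u₁) ≤ 4 * ((4 * Λ ^ 5) ^ 2 * φ + (Λ ^ 4 + 1) ^ 2 * T₁))
    (H2 : (Λ ^ 4 + 1) * T₁ ≤ Λ * T₀) (H3 : T₀ ≤ B + T₁) (H4 : B = 4 * Λ ^ 5 * β)
    (H5 : (Λ ^ 4 + 1 + 1) * T₂ ≤ Λ * T₁) (H6 : β ≤ u₀ + u₁ + φ) :
    Λ * (u₀ + u₁ + T₂) ≤ 64 * φ := by
  lift u₀ to NNReal using f1
  lift u₁ to NNReal using f2
  lift φ to NNReal using f3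
  lift β to NNReal using f4
  lift B to NNReal using f5
  lift T₀ to NNReal using f6
  lift T₁ to NNReal using f7
  lift T₂ to NNReal using f8
  have G0 : (4 * (Λ : ℝ) ^ 5) ^ 2 * (Λ * u₀) ≤ 4 * ((4 * Λ ^ 5) ^ 2 * φ + (Λ ^ 4 + 1) ^ 2 * T₁) := by
    exact_mod_cast H0
  have G1 : (4 * (Λ : ℝ) ^ 5) ^ 2 * (Λ * u₁) ≤ 4 * ((4 * Λ ^ 5) ^ 2 * φ + (Λ ^ 4 + 1) ^ 2 * T₁) := by
    exact_mod_cast H1
  have G2 : ((Λ : ℝ) ^ 4 + 1) * T₁ ≤ Λ * T₀ := by exact_mod_cast H2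
  have G3 : (T₀ : ℝ) ≤ B + T₁ := by exact_mod_cast H3
  have G4 : (B : ℝ) = 4 * Λ ^ 5 * β := by exact_mod_cast H4
  have G5 : ((Λ : ℝ) ^ 4 + 1 + 1) * T₂ ≤ Λ * T₁ := by exact_mod_cast H5
  have G6 : (β : ℝ) ≤ u₀ + u₁ + φ := by exact_mod_cast H6
  suffices G : (Λ : ℝ) * (u₀ + u₁ + T₂) ≤ 64 * φ by exact_mod_cast G
  have p0 := u₀.coe_nonneg
  have p1 := u₁.coe_nonneg
  have p2 := φ.coe_nonneg
  have p3 := β.coe_nonneg
  have p4 := T₁.coe_nonneg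
  have p5 := T₂.coe_nonneg
  have hx : (16 : ℝ) ≤ Λ := by exact_mod_cast hΛ
  generalize (Λ : ℝ) = x at *
  generalize (u₀ : ℝ) = u at *
  generalize (u₁ : ℝ) = v at *
  generalize (φ : ℝ) = f at *
  generalize (β : ℝ) = b at *
  generalize (T₁ : ℝ) = T at *
  generalize (T₂ : ℝ) = T' at *
  have x0 : 0 < x := by linarith
  have x3 : 2 ≤ x ^ 3 := by nlinarith [mul_le_mul hx hx (by norm_num) x0.le]
  have x4 : 2 * x ≤ x ^ 4 := by nlinarith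
  have A1 : (x ^ 4 + 1) * T ≤ 8 * x ^ 6 * b := by
    have := mul_le_mul_of_nonneg_left G3 x0.le
    rw [G4] at this
    nlinarith [mul_le_mul_of_nonneg_right x4 p4]
  have A2 : (x ^ 4 + 1) ^ 2 * T ≤ (4 * x ^ 5) ^ 2 * b := by
    calc _ = (x ^ 4 + 1) * ((x ^ 4 + 1) * T) := by ring
      _ ≤ (2 * x ^ 4) * (8 * x ^ 6 * b) :=
        mul_le_mul (by linarith) A1 (by positivity) (by positivity)
      _ = _ := by ring
  have q0 : 0 < (4 * x ^ 5) ^ 2 := by positivity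
  have A3 : x * u ≤ 4 * (f + b) := le_of_mul_le_mul_left (by linarith) q0
  have A4 : x * v ≤ 4 * (f + b) := le_of_mul_le_mul_left (by linarith) q0
  have A5 : x * (u + v) ≤ 32 * f := by nlinarith [mul_le_mul_of_nonneg_right hx (add_nonneg p0 p1)]
  have A6 : b ≤ 3 * f := by nlinarith [mul_le_mul_of_nonneg_right hx (add_nonneg p0 p1)]
  have A7 : x * T' ≤ 8 * b := by
    refine le_of_mul_le_mul_left ?_ (show 0 < x ^ 7 by positivity)
    calc x ^ 7 * (x * T') = x ^ 4 * (x ^ 4 * T') := by ring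
      _ ≤ x ^ 4 * (x * T) := mul_le_mul_of_nonneg_left (by linarith) (by positivity)
      _ = x * (x ^ 4 * T) := by ring
      _ ≤ x * (8 * x ^ 6 * b) := mul_le_mul_of_nonneg_left (by linarith) x0.le
      _ = _ := by ring
  linarith

/-- exactly `s` blocks are zero and the hash block of their list is zero -/
def Bad0 (l : ℕ) (J : Finset L) (key : Finset L → L) (s r : ℕ) : Set Om :=
  {A | (zs l J A).card = s ∧ A ∈ Z (blk r (key (zs l J A)))}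

variable {key : Finset L → L} {F : Set Om}

theorem plant_key (hP : Dep (lo a) P) (ha : a ≤ n + 1) (hK : n + 1 + l ≤ K)
    (hk : ∀ X ⊆ strs (n + 1), X.card = s → (key X).length = K)
    (hi : ∀ X ⊆ strs (n + 1), ∀ Y ⊆ strs (n + 1), X.card = s → Y.card = s → key X = key Y → X = Y)
    {W : Finset L → Set Om} (hW : ∀ X, Cert t (W X)) (fW : ∀ X, FD (W X)) (b : Bool)
    (hF : ∀ A, ∀ X ⊆ strs (n + 1), X.card = s → ∀ y ∈ side b n, y ∉ X →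
      zs l (strs (n + 1)) A = insert y X → A ∈ Z (blk r (key X)) → A ∈ W X → A ∈ F) :
    2⁻¹ ^ l * ((2 ^ n - (s + t) : ℕ) * mu {A | (zs l (strs (n + 1)) A).card = s ∧
      A ∈ Z (blk r (key (zs l (strs (n + 1)) A))) ∩ (P ∩ W (zs l (strs (n + 1)) A))}) ≤
      mu (P ∩ F) + 2⁻¹ ^ r * (2⁻¹ ^ r * (((s + 1) ^ 2 : ℕ) *
        mu (P ∩ {A | s + 1 ≤ (zs l (strs (n + 1)) A).card}))) := by
  set J := strs (n + 1)
  have hJ : Len (n + 1) J := len_strs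
  have hs : ∀ y ∈ side b n, y ∈ J := fun y c => mem_strs.2 (len_side y c)
  let G : L → Set Om := fun y => {A | (y ∈ zs l J A ∧ (zs l J A).card = s + 1) ∧
    A ∈ Z (blk r (key ((zs l J A).erase y))) ∩ (P ∩ W ((zs l J A).erase y))}
  have fG : ∀ y, FD (G y) := fun y => fd_fib (E := fun X => {A | (y ∈ X ∧ X.card = s + 1) ∧
    A ∈ Z (blk r (key (X.erase y))) ∩ (P ∩ W (X.erase y))})
    fun X => fd_and _ ((fd_Z _).inter (hP.fd.inter (fW _)))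
  have he : ∀ X ⊆ J, ∀ y ∈ X, X.card = s + 1 → X.erase y ⊆ J ∧ (X.erase y).card = s :=
    fun X c y d e => ⟨(X.erase_subset y).trans c, by rw [Finset.card_erase_of_mem d, e]; rfl⟩
  refine le_trans ?_ ((bonf (side b n) G (fun y _ => fG y) (E := P ∩ F) fun y c A d => ?_).trans
    (add_le_add le_rfl ?_))
  · refine le_trans (mul_le_mul_right (le_sum_count (side b n) (fun y => zr (blk l y) ⁻¹' G y)
      (fun y _ => (fG y).zr _) (fd_fib (E := fun X => {A | X.card = s ∧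
        A ∈ Z (blk r (key X)) ∩ (P ∩ W X)}) fun X => fd_and _ ((fd_Z _).inter (hP.fd.inter (fW _))))
      _ fun A c => ?_) _) ?_
    · classical
      obtain ⟨c1, c2, c3, c4⟩ := c
      have h3 := (hW _).count (l := l) (len_side (b := b) (n := n)) c4
      refine ⟨(side b n \ zs l J A) \ (side b n).filter fun y => zr (blk l y) A ∉ W (zs l J A),
        le_trans ?_ (Finset.le_card_sdiff _ _), fun y d => ?_⟩
      · have := Finset.le_card_sdiff (zs l J A) (side b n)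
        rw [card_side] at this
        omega
      · obtain ⟨d1, d3⟩ := Finset.mem_sdiff.1 d
        obtain ⟨d1, d2⟩ := Finset.mem_sdiff.1 d1
        refine ⟨d1, ?_⟩
        simp only [G, mem_preimage, mem_ofPred_eq, zs_zr hJ (hs y d1), Finset.erase_insert d2]
        refine ⟨⟨by simp, by rw [Finset.card_insert_of_notMem d2, c1]⟩, (Dep.zr_iff ((dep_Z _).mono
          fun x e f => ?_)).2 c2, (hP.out (len_side y d1 ▸ ha)).zr_iff.2 c3,
          by_contra fun e => d3 (Finset.mem_filter.2 ⟨d1, e⟩)⟩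
        have e1 := (blk_len e).1
        have e2 := (blk_len f).2
        rw [hk _ zs_sub c1] at e1
        rw [len_side y d1] at e2
        omega
    · rw [Finset.mul_sum]
      refine Finset.sum_le_sum fun y _ => ?_
      have := plant (blk l y) (fG y)
      rw [card_blk] at this
      exact this.ge.trans (measure_mono inter_subset_right)
  · obtain ⟨⟨d1, d2⟩, d3, d4, d5⟩ := d
    obtain ⟨e1, e2⟩ := he _ zs_sub y d1 d2
    exact ⟨d4, hF A _ e1 e2 y c (by simp) (Finset.insert_erase d1).symm d3 d5⟩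
  · refine le_trans (Finset.sum_le_sum (g := fun p => 2⁻¹ ^ r * (2⁻¹ ^ r * mu {A | (p.1 ∈ zs l J A ∧
      p.2 ∈ zs l J A ∧ (zs l J A).card = s + 1) ∧ A ∈ P})) fun p c => ?_) ?_
    · obtain ⟨-, -, c⟩ := Finset.mem_offDiag.1 c
      rw [← hash_fib hJ (fun X => key (X.erase p.2)) (fun X => p.1 ∈ X ∧ p.2 ∈ X ∧ X.card = s + 1)
        (fun _ => P) (fun _ => hP.fd) fun X d e => by
          obtain ⟨e1, e2⟩ := he X d _ e.2.1 e.2.2
          exact ⟨hk _ e1 e2 ▸ hK, hP.out (by rw [hk _ e1 e2]; omega)⟩,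
        ← hash_fib hJ (fun X => key (X.erase p.1)) (fun X => p.1 ∈ X ∧ p.2 ∈ X ∧ X.card = s + 1)
        (fun X => Z (blk r (key (X.erase p.2))) ∩ P) (fun _ => (fd_Z _).inter hP.fd) fun X d e => by
          obtain ⟨e1, e2⟩ := he X d _ e.1 e.2.2
          obtain ⟨e3, e4⟩ := he X d _ e.2.1 e.2.2
          refine ⟨hk _ e1 e2 ▸ hK, Dep.inter ((dep_Z _).mono ?_) (hP.out (by rw [hk _ e1 e2]; omega))⟩
          refine fun x f g => c ?_
          exact (Finset.erase_inj X e.1).1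
            (hi _ e1 _ e3 e2 e4 (blk_eq ((hk _ e1 e2).trans (hk _ e3 e4).symm) g f))]
      exact measure_mono fun A ⟨d, e⟩ => ⟨⟨d.1.1, e.1.1, d.1.2⟩, d.2.1, e.2.1, d.2.2.1⟩
    · rw [← Finset.mul_sum, ← Finset.mul_sum]
      gcongr
      refine sum_le_count _ _ (fun p _ => (fd_zs fun X => p.1 ∈ X ∧ p.2 ∈ X ∧ X.card = s + 1).inter
        hP.fd) (hP.fd.inter (fd_zs fun X => s + 1 ≤ X.card)) _ (fun p _ A c => ⟨c.2, c.1.2.2.ge⟩)
        fun A _ => ?_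
      by_cases c : (zs l J A).card = s + 1
      · exact ⟨zs l J A ×ˢ zs l J A, by rw [Finset.card_product, c, sq],
          fun p _ d => Finset.mem_product.2 ⟨d.1.1, d.1.2.1⟩⟩
      · exact ⟨∅, by simp, fun p _ d => (c d.1.2.2).elim⟩

theorem ineq_nc {h k : ℕ} {TB : Set Om} (hP : Dep (lo a) P) (ha : a ≤ n + 1) (hK : n + 1 + l ≤ K)
    (hl : l + (h + 4) = n + 1) (hs : s = 2 ^ (4 * (h + 4))) (hr : r = 5 * (h + 4) + 2)
    (hn : 2 * (s + t) ≤ 2 ^ n) (hk : ∀ X ⊆ strs (n + 1), X.card = s → (key X).length = K)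
    (hi : ∀ X ⊆ strs (n + 1), ∀ Y ⊆ strs (n + 1), X.card = s → Y.card = s → key X = key Y → X = Y)
    {W : Bool → Finset L → Set Om} (hW : ∀ b X, Cert t (W b X)) (fW : ∀ b X, FD (W b X))
    (hF : ∀ b A, ∀ X ⊆ strs (n + 1), X.card = s → ∀ y ∈ side (!b) n, y ∉ X →
      zs l (strs (n + 1)) A = insert y X → A ∈ Z (blk r (key X)) → A ∈ W b X → A ∈ F)
    (h1 : ∀ A ∉ TB, ∀ X ⊆ strs (n + 1), X.card = s → ∃ b, A ∈ W b X) (h2 : TB ⊆ F) :
    mu (P ∩ (Bad0 l (strs (n + 1)) key s r ∪ {A | s + 2 ≤ (zs l (strs (n + 1)) A).card}) ∩ TBᶜ) ≤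
      2⁻¹ ^ h * ((4 : ℕ) * mu (P ∩ F) + 2⁻¹ ^ k) := by
  have H := fun b => plant_key hP ha hK hk hi (hW b) (fW b) (!b) (hF b)
  have H2 := tail_up (l := l) (len_strs (n := n + 1)) hP ha s
  have H5 := tail_up (l := l) (len_strs (n := n + 1)) hP ha (s + 1)
  have H4 := hash_fib (l := l) (r := r) (len_strs (n := n + 1)) key (fun X => X.card = s)
    (fun _ => P) (fun _ => hP.fd) fun X c d => ⟨hk X c d ▸ hK, hP.out (by rw [hk X c d]; omega)⟩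
  have e1 : (2⁻¹ : ℝ≥0∞) ^ l * 2 ^ (n + 1) = 2 ^ (h + 4) := by
    rw [← hl, pow_add, ← mul_assoc, half_pow, one_mul]
  have e2 : (2 : ℝ≥0∞) ^ r = 4 * (2 ^ (h + 4)) ^ 5 := by rw [hr]; ring
  have e3 : (s : ℝ≥0∞) = (2 ^ (h + 4)) ^ 4 := by rw [hs]; push_cast; ring
  have e4 : (2 : ℝ≥0∞) ^ (n + 1) ≤ 4 * ((2 ^ n - (s + t) : ℕ) : ℝ≥0∞) := by
    have : 2 ^ (n + 1) ≤ 4 * (2 ^ n - (s + t)) := by rw [pow_succ]; omega
    exact_mod_cast this
  have e5 : (2 : ℝ≥0∞) ^ r * 2⁻¹ ^ r = 1 := by rw [mul_comm, half_pow]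
  rw [card_strs] at H2 H5
  push_cast at H2 H5
  rw [e1, e3] at H2 H5
  set J := strs (n + 1)
  let u : Bool → ℝ≥0∞ := fun b => mu {A | (zs l J A).card = s ∧
    A ∈ Z (blk r (key (zs l J A))) ∩ (P ∩ W b (zs l J A))}
  have H0 : ∀ b, (4 * (2 ^ (h + 4)) ^ 5) ^ 2 * (2 ^ (h + 4) * u b) ≤ 4 * ((4 * (2 ^ (h + 4)) ^ 5) ^ 2 *
      mu (P ∩ F) + ((2 ^ (h + 4)) ^ 4 + 1) ^ 2 * mu (P ∩ {A | s + 1 ≤ (zs l J A).card})) := fun b => by
    rw [← e2, ← e3, ← e1]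
    calc _ ≤ (2 ^ r) ^ 2 * (2⁻¹ ^ l * (4 * ((2 ^ n - (s + t) : ℕ) : ℝ≥0∞)) * u b) := by gcongr
      _ = 4 * ((2 ^ r) ^ 2 * (2⁻¹ ^ l * (((2 ^ n - (s + t) : ℕ) : ℝ≥0∞) * u b))) := by ring
      _ ≤ 4 * ((2 ^ r) ^ 2 * (mu (P ∩ F) + 2⁻¹ ^ r * (2⁻¹ ^ r * (((s + 1) ^ 2 : ℕ) *
          mu (P ∩ {A | s + 1 ≤ (zs l J A).card}))))) := by gcongr; exact H b
      _ = 4 * ((2 ^ r) ^ 2 * mu (P ∩ F) + (2 ^ r * 2⁻¹ ^ r) ^ 2 * ((s + 1) ^ 2 *
          mu (P ∩ {A | s + 1 ≤ (zs l J A).card}))) := by push_cast; ring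
      _ = _ := by rw [e5, one_pow, one_mul]
  have hU : ∀ A, A ∈ P → A ∉ TB → A ∈ Bad0 l J key s r → A ∈ {A | (zs l J A).card = s ∧
      A ∈ Z (blk r (key (zs l J A))) ∩ (P ∩ W false (zs l J A))} ∪ {A | (zs l J A).card = s ∧
      A ∈ Z (blk r (key (zs l J A))) ∩ (P ∩ W true (zs l J A))} := fun A c d e => by
    obtain ⟨_ | _, f⟩ := h1 A d _ zs_sub e.1
    exacts [Or.inl ⟨e.1, e.2, c, f⟩, Or.inr ⟨e.1, e.2, c, f⟩]
  have H3 : P ∩ {A | s ≤ (zs l J A).card} ⊆ {A | (zs l J A).card = s ∧ A ∈ P} ∪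
      P ∩ {A | s + 1 ≤ (zs l J A).card} := fun A c =>
    (Nat.eq_or_lt_of_le c.2).imp (fun d => ⟨d.symm, c.1⟩) fun d => ⟨c.1, d⟩
  have H6 : {A | (zs l J A).card = s ∧ A ∈ Z (blk r (key (zs l J A))) ∩ P} ⊆ _ ∪ P ∩ F := fun A c =>
    (em (A ∈ TB)).symm.imp (fun d => hU A c.2.2 d ⟨c.1, c.2.1⟩) fun d => ⟨c.2.2, h2 d⟩
  have H7 := arith (Λ := 2 ^ (h + 4)) (by rw [pow_add]; have := Nat.two_pow_pos h; omega)
    (u₀ := u false) (u₁ := u true) (B := mu {A | (zs l J A).card = s ∧ A ∈ P})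
    (β := mu {A | (zs l J A).card = s ∧ A ∈ Z (blk r (key (zs l J A))) ∩ P})
    (measure_ne_top _ _) (measure_ne_top _ _) (measure_ne_top _ _) (measure_ne_top _ _)
    (measure_ne_top _ _) (measure_ne_top _ _) (measure_ne_top _ _) (measure_ne_top _ _)
    (by push_cast; exact H0 false) (by push_cast; exact H0 true) (by push_cast; exact H2)
    (le_trans (measure_mono H3) (measure_union_le _ _))
    (by push_cast; rw [H4, ← e2, ← mul_assoc, e5, one_mul]) (by push_cast; exact H5)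
    (le_trans (measure_mono H6) ((measure_union_le _ _).trans
      (add_le_add (measure_union_le _ _) le_rfl)))
  push_cast at H7
  refine le_trans (measure_mono fun A c => c.1.2.imp (hU A c.1.1 c.2) fun d => ⟨c.1.1, d⟩)
    ((measure_union_le _ (P ∩ {A | s + 1 + 1 ≤ (zs l J A).card})).trans
      ((add_le_add (measure_union_le _ _) le_rfl).trans ?_))
  refine le_trans ?_ (mul_le_mul_right le_self_add _)
  calc _ = 2⁻¹ ^ (h + 4) * (2 ^ (h + 4) * (u false + u true +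
        mu (P ∩ {A | s + 1 + 1 ≤ (zs l J A).card}))) := by rw [← mul_assoc, half_pow, one_mul]
    _ ≤ 2⁻¹ ^ (h + 4) * (64 * mu (P ∩ F)) := by gcongr
    _ = 2⁻¹ ^ h * ((2⁻¹ ^ 4 * 2 ^ 4) * (4 * mu (P ∩ F))) := by ring
    _ = _ := by rw [half_pow, one_mul]; rfl

theorem risk_nc (h j : ℕ) : ∃ r < 1, ∀ n, h < n → 2 ^ n + j ≤ 2 ^ (n + 1) →
    mu {A | j ≤ (zs (n - h) (strs (n + 1)) A).card}ᶜ ≤ r := by
  obtain ⟨r, hr, H⟩ := risk_co h
  have h0 : (1 - r) / j.factorial ≠ 0 := by simp [tsub_eq_zero_iff_le, hr]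
  refine ⟨1 - (1 - r) / j.factorial, ENNReal.sub_lt_self (by simp) (by simp) h0, fun n c d => ?_⟩
  have e : {A | ∀ b, A ∉ Has (n - h) (side b n)} = (Has (n - h) (strs (n + 1)))ᶜ := by
    ext A; simp [has_strs]
  have h1 := H n c
  rw [e, prob_compl_eq_one_sub fd_has.compl.meas] at h1
  rw [prob_compl_eq_one_sub (fd_zs fun X => j ≤ X.card).meas]
  refine tsub_le_tsub_left (ENNReal.div_le_of_le_mul' ((tsub_le_iff_tsub_le.1 h1).trans
    ((tail_fact len_strs j ?_).trans (mul_le_mul_right (measure_mono fun A e => ?_) _)))) _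
  · rw [card_strs]
    exact le_trans (Nat.add_le_add_right (Nat.pow_le_pow_right (by omega) (by omega)) _) d
  · exact Eq.ge e

end Pool.Agent.Lib.MP_2c6a5a_lc.RO
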