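import Pool.Agent.Lib.MP_2c6a5a_lc.NC.Key
import Pool.Agent.Lib.MP_2c6a5a_lc.RO.Mach

/-! Sorted lists of strings of one length, written as one string. -/

namespace Pool.Agent.Lib.MP_2c6a5a_lc.RO

open Pool.Agent.Lib.MP_8a52c3_lc.Orc Pool.Agent.Lib.MP_2c6a5a_lc.U

/-- the sorted list of a finite set of strings -/
def ky (X : Finset L) : L := (X.sort (· ≤ ·)).flatten

/-- the piece number `i` of length `m` -/
def ch (m : ℕ) (x : L) (i : ℕ) : L := (x.drop (i * m)).take m

/-- lexicographic comparison of strings of one length -/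
def lx (u v : L) : Prop :=
  ∃ i < u.length, u.take i = v.take i ∧ (u.drop i).take 1 = [false] ∧ (v.drop i).take 1 = [true]

/-- `x` is an increasing list of `s` strings of length `m` -/
def Srt (m s : ℕ) (x : L) : Prop := x.length = s * m ∧ ∀ i < s, ∀ j < i, lx (ch m x j) (ch m x i)

/-- the listed strings -/
def els (m s : ℕ) (x : L) : Finset L := (Finset.range s).image (ch m x)

variable {m s i : ℕ} {x y : L} {X : Finset L}

theorem lx_iff {u v : L} (h : u.length = v.length) : lx u v ↔ u < v := by
  induction u generalizing v with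
  | nil =>
    obtain rfl : v = [] := List.length_eq_zero_iff.1 h.symm
    simp [lx]
  | cons a u ih =>
    rcases v with _ | ⟨b, v⟩
    · simp at h
    · rw [List.cons_lt_cons_iff, ← ih (by simpa using h), lx, lx, List.length_cons,
        Nat.exists_lt_succ_left]
      refine or_congr (by cases a <;> cases b <;> simp) ?_
      simp only [List.take_succ_cons, List.drop_succ_cons, List.cons.injEq]
      exact ⟨fun ⟨i, c, ⟨d, e⟩, f⟩ => ⟨d, i, c, e, f⟩, fun ⟨d, i, c, e, f⟩ => ⟨i, c, ⟨d, e⟩, f⟩⟩

theorem ch_succ (y x : L) (i : ℕ) : ch y.length (y ++ x) (i + 1) = ch y.length x i := by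
  rw [ch, ch, Nat.succ_mul, add_comm, List.drop_length_add_append]

theorem flat_ch (T : List L) (h : ∀ y ∈ T, y.length = m) :
    T.flatten.length = T.length * m ∧ (List.range T.length).map (ch m T.flatten) = T := by
  induction T with
  | nil => simp
  | cons y T ih =>
    obtain ⟨h1, h2⟩ := ih fun z c => h z (by simp [c])
    obtain rfl := h y (by simp)
    refine ⟨by rw [List.flatten_cons, List.length_append, h1, List.length_cons]; ring, ?_⟩
    rw [List.length_cons, List.range_succ_eq_map, List.map_cons, List.map_map, List.flatten_cons]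
    congr 1
    · simp [ch]
    · exact (List.map_congr_left fun i _ => ch_succ _ _ i).trans h2

theorem ch_flat (h : x.length = s * m) : ((List.range s).map (ch m x)).flatten = x := by
  induction s generalizing x with
  | zero => simpa [eq_comm] using h
  | succ s ih =>
    have l : (x.take m).length = m := by rw [List.length_take, h, Nat.succ_mul]; omega
    rw [List.range_succ_eq_map, List.map_cons, List.map_map, List.flatten_cons]
    have e : ∀ i, (ch m x ∘ Nat.succ) i = ch m (x.drop m) i := fun i => by
      have := ch_succ (x.take m) (x.drop m) i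
      rwa [l, List.take_append_drop] at this
    rw [List.map_congr_left fun i _ => e i, ih (by rw [List.length_drop, h, Nat.succ_mul]; omega)]
    simp [ch]

theorem ch_len (h : x.length = s * m) (hi : i < s) : (ch m x i).length = m := by
  have := Nat.mul_le_mul_right m (show i + 1 ≤ s from hi)
  rw [Nat.succ_mul] at this
  rw [ch, List.length_take, List.length_drop, h]
  omega

theorem mem_els : y ∈ els m s x ↔ ∃ i < s, ch m x i = y := by simp [els]

theorem els_eq : els m s x = ((List.range s).map (ch m x)).toFinset := by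
  ext y; simp [mem_els]

theorem srt_iff : Srt m s x ↔ x.length = s * m ∧ ((List.range s).map (ch m x)).Pairwise (· < ·) := by
  refine and_congr_right fun h => ?_
  simp only [List.pairwise_iff_getElem, List.length_map, List.length_range, List.getElem_map,
    List.getElem_range]
  exact ⟨fun c j i d e f => (lx_iff ((ch_len h d).trans (ch_len h e).symm)).1 (c i e j f),
    fun c i e j f => (lx_iff ((ch_len h (f.trans e)).trans (ch_len h e).symm)).2 (c j i (f.trans e) e f)⟩

theorem ky_srt (h : X ⊆ strs m) (hs : X.card = s) : Srt m s (ky X) ∧ els m s (ky X) = X := by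
  obtain ⟨h1, h2⟩ := flat_ch (X.sort (· ≤ ·)) fun y c => mem_strs.1 (h ((Finset.mem_sort _).1 c))
  rw [Finset.length_sort, hs] at h1 h2
  rw [srt_iff, els_eq, ky, h2]
  exact ⟨⟨h1, (Finset.sortedLT_sort X).pairwise⟩, Finset.sort_toFinset _ _⟩

theorem Srt.ky (h : Srt m s x) : els m s x ⊆ strs m ∧ (els m s x).card = s ∧ ky (els m s x) = x := by
  obtain ⟨h1, h2⟩ := srt_iff.1 h
  refine ⟨fun y c => ?_, ?_, ?_⟩
  · obtain ⟨i, d, rfl⟩ := mem_els.1 c
    exact mem_strs.2 (ch_len h1 d)
  · rw [els_eq, List.toFinset_card_of_nodup h2.nodup]; simp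
  · rw [els_eq, RO.ky, (List.toFinset_sort _ h2.nodup).2 (h2.imp le_of_lt), ch_flat h1]

variable {A : Om} {n : ℕ} {f g p : St → L}

theorem pf_ch (hf : PF A n f) (hg : PF A n g) (hp : PF A n p) :
    PF A n fun σ => ch (f σ).length (g σ) (p σ).length :=
  (hf.take ((hp.mul hf).drop hg)).of_eq fun σ => by rw [un_length]; rfl

theorem pd_lx (hf : PF A n f) (hg : PF A n g) : PD A n fun σ => lx (f σ) (g σ) :=
  (PD.ball (R := fun q u => ¬ ((fst q).take u.length = (snd q).take u.length ∧
    ((fst q).drop u.length).take [true].length = [false] ∧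
    ((snd q).drop u.length).take [true].length = [true]))
    (((PF.v1.take PF.v0.fst).eq (PF.v1.take PF.v0.snd)).and
      ((((PF.const _).take (PF.v1.drop PF.v0.fst)).eq (PF.const _)).and
        (((PF.const _).take (PF.v1.drop PF.v0.snd)).eq (PF.const _)))).not
    (hf.pr hg) hf).not.of_iff fun σ => by simp [lx]

theorem pd_srt (hf : PF A n f) (hp : PF A n p) (hg : PF A n g) :
    PD A n fun σ => Srt (f σ).length (p σ).length (g σ) :=
  (((hg.le (hp.mul hf)).and ((hp.mul hf).le hg)).and
    (PD.ball (R := fun q u => ∀ j < u.length, lx (ch (fst (fst (pr q u))).length (snd (fst (pr q u)))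
      (un j).length) (ch (fst (fst (pr q u))).length (snd (fst (pr q u))) (snd (pr q u)).length))
      (PD.ball (R := fun z v => lx (ch (fst (fst z)).length (snd (fst z)) v.length)
        (ch (fst (fst z)).length (snd (fst z)) (snd z).length))
        (pd_lx (pf_ch PF.v0.fst.fst PF.v0.fst.snd PF.v1) (pf_ch PF.v0.fst.fst PF.v0.fst.snd PF.v0.snd))
        (PF.v0.pr PF.v1) PF.v1) (hf.pr hg) hp)).of_iff fun σ => by
    simp only [Srt, fst_pr, snd_pr, un_length, le_antisymm_iff]

end Pool.Agent.Lib.MP_2c6a5a_lc.RO
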