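import Pool.Agent.Lib.MP_2c6a5a_lc.NC.Tst
import Pool.Agent.Lib.MP_2c6a5a_lc.MxMain

/-! Relative to a random oracle no disjoint coNP pair is hard for UP ∩ coUP. -/

namespace Pool.Agent.Lib.MP_2c6a5a_lc.RO

open Pool.Agent.Lib.MP_8a52c3_lc.Orc Pool.Agent.Lib.MP_2c6a5a_lc.U Filter MeasureTheory

theorem sc_big {k h : ℕ} (hk : 4 ≤ k) (hh : h ≤ k) : 2 ^ (4 * (h + 4)) ≤ sc k := by
  obtain ⟨j, rfl⟩ : ∃ j, k = j + 1 := ⟨k - 1, by omega⟩
  have h1 := le_sc j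
  have h2 : 3 ≤ sc j := by omega
  have h3 : 3 ^ 3 * sc j ≤ sc j ^ 4 := by
    rw [pow_succ _ 3]
    exact Nat.mul_le_mul_right _ (Nat.pow_le_pow_left h2 3)
  exact Nat.pow_le_pow_right (by omega) (le_trans (by omega : _ ≤ sc j ^ 4)
    (le_add_right (le_add_right le_add_self)))

theorem nums {k h : ℕ} (hk : 4 ≤ k) (hh : h ≤ k) : ss (sc k) h = 2 ^ (4 * (h + 4)) ∧
    2 ≤ ss (sc k) h ∧ ss (sc k) h + 2 ≤ 2 ^ sc k ^ 4 ∧ h + 3 < sc k ^ 4 ∧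
      2 * (ss (sc k) h + (2 ^ sc k + 2 ^ sc k ^ 3)) ≤ 2 ^ sc k ^ 4 := by
  have h1 := sc_big hk hh
  have h2 : 4 * (h + 4) < 2 ^ (4 * (h + 4)) := Nat.lt_two_pow_self
  have h3 := num1 (a := sc k) (k := 1) (by omega) (by omega)
  have h4 : sc k < 2 ^ sc k := Nat.lt_two_pow_self
  have h5 : sc k ≤ sc k ^ 4 := Nat.le_self_pow (by omega) _
  have h6 := Nat.two_pow_pos (sc k ^ 3)
  rw [ss, min_eq_left (h1.trans (Nat.le_succ _))]
  omega

/-- neither verifier accepts the value of the reduction at some list -/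
def TBn (c : Bool → L) (a h : ℕ) : Set Om :=
  {A | ∃ x : L, x.length ≤ bd a ∧ ∀ b, A ∉ Acc (VX (c b) a h x)}

/-- the verifier of the wrong side accepts -/
def Fail (c : Bool → L) (a h : ℕ) : Set Om :=
  {A | ∃ x b, (∃ y, A ∈ Hid (!b) a h x y) ∧ A ∈ Acc (VX (c b) a h x)}

theorem bf_fl {A : Om} (c : Bool → L) : BF A fun a h _ => A ∈ Fail c a h ∪ TBn c a h := by
  have l : ∀ a (x : L), x.length ≤ bd a → 2 ^ (x.length + 1) ≤ nx a := fun a x e =>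
    Nat.pow_le_pow_right (by omega) (by rw [bd] at e; omega)
  refine (((((bf_hid true).and (bf_vx (c false))).or ((bf_hid false).and (bf_vx (c true)))).ex
    fun a h x e => l a x ?_).or ((bf_len.and ((bf_vx (c false)).not.and (bf_vx (c true)).not)).ex
      fun a h x e => l a x e.1)).of_iff fun a h _ => ?_
  · rcases e with ⟨⟨y, e⟩, -⟩ | ⟨⟨y, e⟩, -⟩ <;> exact (val_len e.1).2
  · simp only [Fail, TBn, Set.mem_union, Set.mem_ofPred_eq, Bool.exists_bool, Bool.forall_bool,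
      Bool.not_true, Bool.not_false]

theorem ae_lev (c : Bool → L) : ∀ᵐ A ∂mu,
    (∀ᶠ k in atTop, A ∉ TBn c (sc k) (lev (fun k h => Fail c (sc k) h ∪ TBn c (sc k) h) A k)) →
      (∀ᶠ k in atTop, A ∉ tbn (sc k) (lev (fun k h => Fail c (sc k) h ∪ TBn c (sc k) h) A k)) ∧
        ∀ h, ∃ k, h ≤ k ∧ lev (fun k h => Fail c (sc k) h ∪ TBn c (sc k) h) A k = h ∧
          A ∈ Fail c (sc k) h ∪ TBn c (sc k) h := by
  refine bc_main (tb := fun k => tbn (sc k)) (TB := fun k => TBn c (sc k)) sc_mono.monotone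
    (fun k h l => Dep.union (fun A B e ⟨x, b, ⟨y, u⟩, v⟩ => ⟨x, b, ⟨y, dep_hid (l.trans (le_sc k))
      A B e u⟩, dep_vx _ _ _ _ A B e v⟩) fun A B e ⟨x, u, v⟩ =>
        ⟨x, u, fun b => (dep_vx _ _ _ _).compl A B e (v b)⟩)
    (fun k h l => dep_tbn_lo (l.trans (le_sc k))) (fun k h _ => dep_tbn_hi) (fun h => ?_) 4 ?_
  · obtain ⟨r, hr, H⟩ := risk_nc (h + 3) (2 ^ (4 * (h + 4)) + 2)
    refine ⟨r, hr, ?_⟩
    filter_upwards [eventually_ge_atTop 4, eventually_ge_atTop h] with k h1 h2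
    obtain ⟨e1, -, e3, e4, -⟩ := nums h1 h2
    refine le_trans (measure_mono (Set.compl_subset_compl.2 fun A u => Or.inr ?_))
      (H (sc k ^ 4) e4 (by rw [pow_succ 2, ← e1]; omega))
    rwa [e1]
  · filter_upwards [eventually_ge_atTop 4] with k h1 h h2 P hP
    obtain ⟨e1, e2, -, e4, e5⟩ := nums h1 h2
    have l := len_bd (sc k) h
    refine ineq_nc (K := ss (sc k) h * (sc k ^ 4 + 1)) hP
      ((Nat.le_self_pow (by omega) _).trans (Nat.le_succ _))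
      (le_trans (by omega) (Nat.mul_le_mul_right _ e2)) (by omega) e1 rfl e5
      (fun X u v => (ky_srt u v).1.1)
      (fun X u Y u' v v' e => by rw [← (ky_srt u v).2, e, (ky_srt u' v').2])
      (W := fun b X => Acc (VX (c b) (sc k) h (ky X))) (fun b X => cert_vx _ _ _ _)
      (fun b X => (dep_vx _ _ _ _).fd) (fun b A X u v y w1 w2 w3 w4 w5 => ?_)
      (fun A u X v w => ?_) Set.subset_union_right
    · obtain ⟨g1, g2⟩ := ky_srt u v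
      have g3 : ∀ z ∈ insert y X, A ∈ Z (blk (sc k ^ 4 - (h + 3)) z) := fun z m =>
        (mem_zs.1 (w3 ▸ m)).2
      have g4 : ∀ i < ss (sc k) h, ch (sc k ^ 4 + 1) (ky X) i ∈ X := fun i m => by
        have := mem_els.2 ⟨i, m, (rfl : ch (sc k ^ 4 + 1) (ky X) i = _)⟩
        rwa [g2] at this
      exact Or.inl ⟨ky X, b, ⟨y, ⟨g1, fun i m => g3 _ (Finset.mem_insert_of_mem (g4 i m)), w4⟩, w1,
        g3 y (by simp), fun i m e => w2 (e ▸ g4 i m)⟩, w5⟩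
    · exact by_contra fun e => u ⟨ky X, by rw [(ky_srt v w).1.1]; omega, fun b m => e ⟨b, m⟩⟩

theorem ae_pair : ∀ᵐ A ∂mu, ∀ C₀ C₁ : Set L, InNP A C₀ᶜ → InNP A C₁ᶜ → Disjoint C₀ C₁ →
    ∃ B, Mx.InUP A B ∧ Mx.InUP A Bᶜ ∧
      ¬ ∃ f, FP1 A f ∧ ∀ x, (x ∉ B → f x ∈ C₀) ∧ (x ∈ B → f x ∈ C₁) := by
  filter_upwards [ae_all_iff.2 ae_lev] with A H C₀ C₁ h1 h0 hC
  choose c hc using fun b : Bool => vx_iff (D := cond b C₀ᶜ C₁ᶜ) (by cases b <;> assumption)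
  replace hc := sc_top.eventually (eventually_all.2 hc)
  have e0 : ∀ᶠ k in atTop, ∀ h, A ∉ TBn c (sc k) h := hc.mono fun k u h ⟨x, v, w⟩ =>
    w false ((u false h x v).2 fun m => w true ((u true h x v).2 fun m' =>
      Set.disjoint_left.1 hC m' m))
  obtain ⟨e1, e2⟩ := H c (e0.mono fun k u => u _)
  obtain ⟨K, hK⟩ := eventually_atTop.1 e1
  obtain ⟨G, g1, g2, g3⟩ := lev_fp (Fl := fun a h => Fail c a h ∪ TBn c a h) (bf_fl c)
  let ok : L → Prop := fun x => (un (sc K)).length ≤ (fst x).length ∧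
    (fst (G (fst x))).length ≤ (fst x).length ∧ (fst x).length ≤ (fst (G (fst x))).length
  let S : Bool → L → L → Prop := fun b x y =>
    (ok x ∧ A ∈ Hid b (fst x).length (snd (G (fst x))).length (snd x) y) ∨ ([b] = [false] ∧
      ¬ (ok x ∧ A ∈ Val (fst x).length (snd (G (fst x))).length (snd x)) ∧ y = [])
  have hG : PF A 2 fun σ => G (fst (σ 0)) := PF.app g1 PF.v0.fst
  have ho : PD A 2 fun σ => ok (σ 0) :=
    ((PF.const _).le PF.v0.fst).and ((hG.fst.le PF.v0.fst).and (PF.v0.fst.le hG.fst))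
  have hS : ∀ b, NPRel A (S b) := fun b => npRel_intro
    ((ho.and (pd_hid b PF.v0.fst hG.snd PF.v0.snd PF.v1)).or (((PF.const _).eq (PF.const _)).and
      ((ho.and (pd_val PF.v0.fst hG.snd PF.v0.snd)).not.and (PF.v1.eq PF.nil))))
    ((Pol.id.pow 4).add (Pol.const 1)) fun x y u => by
      rcases u with ⟨-, u⟩ | ⟨-, -, rfl⟩
      · rw [len_side y u.2.1]
        exact Nat.succ_le_succ (Nat.pow_le_pow_left (fst_le x) 4)
      · simp
  have hu : ∀ x, ok x → A ∈ Val (fst x).length (snd (G (fst x))).length (snd x) →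
      ∃! y, ∃ b, A ∈ Hid b (fst x).length (snd (G (fst x))).length (snd x) y := fun x u v => by
    refine hid_unique v ?_
    obtain ⟨k, e⟩ := g3 _ (le_antisymm u.2.1 u.2.2)
    rw [g2 k _ e, snd_pr, un_length, e]
    exact hK k (sc_mono.le_iff_le.1 (by rw [← e, ← un_length (sc K)]; exact u.1))
  have unq : ∀ x b b' y y', S b x y → S b' x y' → b = b' ∧ y = y' := by
    rintro x b b' y y' (⟨u, v⟩ | ⟨u, v, rfl⟩) (⟨u', v'⟩ | ⟨u', v', rfl⟩)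
    · obtain rfl := (hu x u v.1).unique ⟨b, v⟩ ⟨b', v'⟩
      exact ⟨by simpa using (mem_side.1 v.2.1).2.symm.trans (mem_side.1 v'.2.1).2, rfl⟩
    · exact (v' ⟨u, v.1⟩).elim
    · exact (v ⟨u', v'.1⟩).elim
    · exact ⟨by simpa using u.trans u'.symm, rfl⟩
  refine ⟨{x | ∃ y, S true x y}, ⟨S true, hS _, fun _ => Iff.rfl, fun x y y' u v => (unq x _ _ _ _ u v).2⟩,
    ⟨S false, hS _, fun x => ⟨fun u => ?_, fun ⟨y, u⟩ ⟨y', v⟩ => Bool.false_ne_true (unq x _ _ _ _ u v).1⟩,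
      fun x y y' u v => (unq x _ _ _ _ u v).2⟩, fun ⟨f, hf, r⟩ => ?_⟩
  · by_cases v : ok x ∧ A ∈ Val (fst x).length (snd (G (fst x))).length (snd x)
    · obtain ⟨y, _ | _, w⟩ := (hu x v.1 v.2).exists
      · exact ⟨y, Or.inl ⟨v.1, w⟩⟩
      · exact (u ⟨y, Or.inl ⟨v.1, w⟩⟩).elim
    · exact ⟨[], Or.inr ⟨rfl, v, rfl⟩⟩
  obtain ⟨d, hd⟩ := zx_eq hf
  obtain ⟨K', hK'⟩ := eventually_atTop.1 (hc.and (e0.and ((sc_top.eventually hd).and
    (eventually_ge_atTop K))))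
  obtain ⟨h, l1, l2⟩ := exists_level d K'
  obtain ⟨k, l3, l4, l5⟩ := e2 h
  obtain ⟨m1, m2, m3, m4⟩ := hK' k (l1.trans l3)
  obtain ⟨x, b, ⟨y, u⟩, v⟩ := l5.resolve_right (m2 h)
  have w := (m1 b h x (val_len u.1).2).1 v
  rw [m3 h x l2 (val_len u.1).1] at w
  have s : S (!b) (pr (un (sc k)) x) y := Or.inl (by
    simp only [ok, fst_pr, snd_pr, g2 k _ (un_length _), un_length, l4]
    exact ⟨⟨sc_mono.monotone m4, le_rfl, le_rfl⟩, u⟩)
  cases b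
  · exact w ((r _).2 ⟨y, s⟩)
  · exact w ((r _).1 fun ⟨y', s'⟩ => Bool.false_ne_true (unq _ _ _ _ _ s s').1)

theorem ae_nc : ∀ᵐ A ∂mu, ∀ C, InNP A C → InNP A Cᶜ → ∃ B, Mx.InUP A B ∧ Mx.InUP A Bᶜ ∧
    ¬ ∃ f, FP1 A f ∧ ∀ x, x ∈ B ↔ f x ∈ C := by
  filter_upwards [ae_pair] with A H C h1 h0
  obtain ⟨B, b1, b0, b⟩ := H Cᶜ C (by rwa [compl_compl]) h0 disjoint_compl_left
  exact ⟨B, b1, b0, fun ⟨f, hf, r⟩ => b ⟨f, hf, fun x => ⟨mt (r x).2, (r x).1⟩⟩⟩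

theorem ae_bg : ∀ᵐ A ∂mu, ∀ C, InNP A C → InNP A Cᶜ → ∃ B, Mx.InUP A B ∧ Mx.InUP A Bᶜ ∧
    ¬ InP A B ∧ ¬ ∃ f, FP1 A f ∧ ∀ x, x ∈ B ↔ f x ∈ C := by
  classical
  filter_upwards [ae_nc] with A H C h1 h0
  by_cases c : (∃ u, u ∈ C) ∧ ∃ v, v ∉ C
  · obtain ⟨⟨u, hu⟩, v, hv⟩ := c
    obtain ⟨B, b1, b0, b⟩ := H C h1 h0
    refine ⟨B, b1, b0, fun ⟨f, hf, r⟩ => b ⟨fun x => if f x = [true] then u else v,
      PF.fp1 (((PF.app hf PF.v0).eq (PF.const _)).ite (PF.const u) (PF.const v)), fun x => ?_⟩, b⟩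
    rw [r]
    by_cases d : f x = [true] <;> simp [d, hu, hv]
  · obtain ⟨B, b1, b0, b⟩ := H {x | x = [true]} (inNP_dec (PF.v0.eq (PF.const _)))
      (inNP_dec (PF.v0.eq (PF.const _)).not)
    refine ⟨B, b1, b0, b, fun ⟨f, _, r⟩ => b ?_⟩
    rcases not_and_or.1 c with d | d
    · exact ⟨fun _ => [], PF.fp1 PF.nil, fun x => by simpa [r] using fun e => d ⟨_, e⟩⟩
    · exact ⟨fun _ => [true], PF.fp1 (PF.const _), fun x => by
        simpa [r] using not_not.1 fun e => d ⟨_, e⟩⟩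

end Pool.Agent.Lib.MP_2c6a5a_lc.RO
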