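import Pool.Agent.Lib.MP_2c6a5a_lc.NC.Lst

/-! The valid inputs, the hidden block and the tests of a candidate. -/

namespace Pool.Agent.Lib.MP_2c6a5a_lc.RO

open Pool.Agent.Lib.MP_8a52c3_lc.Orc Pool.Agent.Lib.MP_2c6a5a_lc.U Function Filter

/-- the number of listed blocks -/
def ss (a h : ℕ) : ℕ := min (2 ^ (4 * (h + 4))) (a + 1)

/-- a bound for the length of the lists -/
def bd (a : ℕ) : ℕ := 2 ^ a + 2 ^ a ^ 2 + 2 ^ a ^ 3

/-- `x` lists zero blocks and its hash block is zero -/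
def Val (a h : ℕ) (x : L) : Set Om := {A | Srt (a ^ 4 + 1) (ss a h) x ∧
  (∀ i < ss a h, A ∈ Z (blk (a ^ 4 - (h + 3)) (ch (a ^ 4 + 1) x i))) ∧
    A ∈ Z (blk (5 * (h + 4) + 2) x)}

/-- `y` is a zero block on side `b` that the valid input `x` does not list -/
def Hid (b : Bool) (a h : ℕ) (x y : L) : Set Om := {A | A ∈ Val a h x ∧ y ∈ side b (a ^ 4) ∧
  A ∈ Z (blk (a ^ 4 - (h + 3)) y) ∧ ∀ i < ss a h, ch (a ^ 4 + 1) x i ≠ y}

/-- the scale is bad -/
def tbn (a h : ℕ) : Set Om :=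
  Bad0 (a ^ 4 - (h + 3)) (strs (a ^ 4 + 1)) ky (ss a h) (5 * (h + 4) + 2) ∪
    {A | ss a h + 2 ≤ (zs (a ^ 4 - (h + 3)) (strs (a ^ 4 + 1)) A).card}

/-- the value of the reduction with number `h` at the list `x` -/
def zx (A : Om) (a h : ℕ) (x : L) : L :=
  (univ A (pr (code h) (un (2 ^ a))) (pr (un a) x)).take (2 ^ a)

/-- the verifier with code `c` accepts the witness `w` for that value -/
def VX (c : L) (a h : ℕ) (x w : L) : Set Om := {A | x.length ≤ bd a ∧ w.length ≤ 2 ^ a ^ 2 ∧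
  univ A (pr c (un (2 ^ a ^ 3))) (pr (zx A a h x) w) = [true]}

variable {a h : ℕ} {x y : L} {A : Om} {b : Bool}

theorem len_bd (a h : ℕ) : ss a h * (a ^ 4 + 1) ≤ (a + 1) * (a ^ 4 + 1) ∧
    (a + 1) * (a ^ 4 + 1) ≤ bd a := by
  refine ⟨Nat.mul_le_mul_right _ (min_le_right _ _), ?_⟩
  rcases Nat.lt_or_ge a 3 with c | c
  · interval_cases a <;> simp [bd]
  · have h1 : a + 1 ≤ 2 ^ a := Nat.lt_two_pow_self
    have h2 : a ^ 4 + 1 ≤ (2 ^ a) ^ 4 := Nat.pow_lt_pow_left h1 (by omega)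
    calc _ ≤ 2 ^ a * (2 ^ a) ^ 4 := Nat.mul_le_mul h1 h2
      _ = 2 ^ (a * 5) := by ring
      _ ≤ 2 ^ a ^ 3 := Nat.pow_le_pow_right (by omega) (by nlinarith [Nat.mul_le_mul c c])
      _ ≤ _ := le_add_self

theorem nx_ge6 (a : ℕ) : 6 * (bd a + a ^ 4 + a + 2) ≤ nx a ∧ 3 ≤ bd a := by
  have h1 : 3 ≤ bd a := by have := nx_ge a; rw [bd]; omega
  refine ⟨?_, h1⟩
  have : ∀ e, 5 ≤ e → 6 * e ≤ 2 ^ e := fun e he => by
    induction e, he using Nat.le_induction with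
    | base => norm_num
    | succ e he ih => rw [pow_succ]; omega
  exact this _ (by omega)

theorem val_len (c : A ∈ Val a h x) : x.length ≤ (a + 1) * (a ^ 4 + 1) ∧ x.length ≤ bd a := by
  rw [c.1.1]
  exact ⟨(len_bd a h).1, (len_bd a h).1.trans (len_bd a h).2⟩

theorem dep_blk {l N : ℕ} (c : y.length + l ≤ N) : Dep (lo N) (Z (blk l y)) :=
  (dep_Z _).mono fun _ d => lt_of_lt_of_le (blk_len d).2 c

theorem dep_hid (hh : h ≤ a) : Dep (lo (nx a)) (Hid b a h x y) := fun A B e ⟨c, d, f, g⟩ => by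
  have := nx_ge6 a
  have := (val_len c).2
  refine ⟨⟨c.1, fun i k => dep_blk ?_ A B e (c.2.1 i k), dep_blk (by omega) A B e c.2.2⟩, d,
    dep_blk (by rw [len_side y d]; omega) A B e f, g⟩
  rw [ch_len c.1.1 k]
  omega

theorem dep_tbn_lo (hh : h ≤ a) : Dep (lo (nx a)) (tbn a h) := by
  have := nx_ge6 a
  have r : reg (a ^ 4 - (h + 3)) (strs (a ^ 4 + 1)) ⊆ lo (nx a) := reg_lo len_strs (by omega)
  refine Dep.union (fun A B e c => ?_) ((dep_zs fun X => ss a h + 2 ≤ X.card).mono r)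
  have := len_bd a h
  rw [Bad0, Set.mem_ofPred_eq, ← zs_congr fun s d => e s (r d)]
  exact ⟨c.1, dep_blk (by rw [(ky_srt zs_sub c.1).1.1]; omega) A B e c.2⟩

theorem dep_tbn_hi : Dep (lo a)ᶜ (tbn a h) := by
  have l : a ≤ a ^ 4 + 1 := (Nat.le_self_pow (by omega) a).trans (Nat.le_succ _)
  have r : reg (a ^ 4 - (h + 3)) (strs (a ^ 4 + 1)) ⊆ (lo a)ᶜ := reg_hi len_strs l
  refine Dep.union (fun A B e c => ?_) ((dep_zs fun X => ss a h + 2 ≤ X.card).mono r)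
  rw [Bad0, Set.mem_ofPred_eq, ← zs_congr fun s d => e s (r d)]
  refine ⟨c.1, dep_Z _ A B (fun s d => e s (not_lt.2 (le_trans ?_ (blk_len d).1))) c.2⟩
  rw [(ky_srt zs_sub c.1).1.1]
  exact l.trans (Nat.le_mul_of_pos_left _ (lt_min (Nat.two_pow_pos _) (by omega)))

theorem hid_iff (c : A ∈ Val a h x) : (∃ b, A ∈ Hid b a h x y) ↔
    y ∈ zs (a ^ 4 - (h + 3)) (strs (a ^ 4 + 1)) A \ els (a ^ 4 + 1) (ss a h) x := by
  rw [Finset.mem_sdiff, mem_zs, mem_els]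
  refine ⟨fun ⟨b, _, d, e, f⟩ => ⟨⟨mem_strs.2 (len_side y d), e⟩, fun ⟨i, g, k⟩ => f i g k⟩,
    fun ⟨⟨d, e⟩, f⟩ => ?_⟩
  rcases y with _ | ⟨b, v⟩
  · simp [mem_strs] at d
  · exact ⟨b, c, mem_side.2 ⟨mem_strs.1 d, rfl⟩, e, fun i g k => f ⟨i, g, k⟩⟩

theorem hid_unique (c : A ∈ Val a h x) (d : A ∉ tbn a h) : ∃! y, ∃ b, A ∈ Hid b a h x y := by
  simp only [hid_iff c]
  obtain ⟨h1, h2, h3⟩ := c.1.ky
  have h4 : els (a ^ 4 + 1) (ss a h) x ⊆ zs (a ^ 4 - (h + 3)) (strs (a ^ 4 + 1)) A := fun y e =>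
    mem_zs.2 ⟨h1 e, by obtain ⟨i, f, rfl⟩ := mem_els.1 e; exact c.2.1 i f⟩
  have h5 := Finset.card_le_card h4
  have h6 : (zs (a ^ 4 - (h + 3)) (strs (a ^ 4 + 1)) A).card ≠ ss a h := fun e => d (Or.inl ⟨e, by
    rw [← Finset.eq_of_subset_of_card_le h4 (by omega), h3]; exact c.2.2⟩)
  have h7 : ¬ ss a h + 2 ≤ (zs (a ^ 4 - (h + 3)) (strs (a ^ 4 + 1)) A).card := fun e => d (Or.inr e)
  exact Finset.card_eq_one_iff_existsUnique.1 (by rw [Finset.card_sdiff_of_subset h4]; omega)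

theorem dt_vx (c : L) (a h : ℕ) {w : L} (hx : x.length ≤ bd a) (hw : w.length ≤ 2 ^ a ^ 2) :
    DT (2 ^ a + 2 ^ a ^ 3) (nx a) fun A => univ A (pr c (un (2 ^ a ^ 3))) (pr (zx A a h x) w) := by
  have := nx_ge6 a
  have := nx_ge a
  have e : bd a = 2 ^ a + 2 ^ a ^ 2 + 2 ^ a ^ 3 := rfl
  exact (dt_univ (code h) (x := pr (un a) x) (by simp; omega)).comp
    (G := fun z A => univ A (pr c (un (2 ^ a ^ 3))) (pr (z.take (2 ^ a)) w))
    fun z => dt_univ c (by rw [pr_length, List.length_take]; omega)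

theorem cert_vx (c : L) (a h : ℕ) (x : L) : Cert (2 ^ a + 2 ^ a ^ 3) (Acc (VX c a h x)) :=
  fun A ⟨w, b⟩ =>
    let ⟨Q, H⟩ := dt_vx c a h b.1 b.2.1
    ⟨Q A, (H A).1, fun B e => ⟨w, b.1, b.2.1, ((H A).2.2 B e).1.trans b.2.2⟩⟩

theorem dep_vx (c : L) (a h : ℕ) (x : L) : Dep (lo (nx a)) (Acc (VX c a h x)) :=
  fun A B e ⟨w, b⟩ =>
    let ⟨_, H⟩ := dt_vx c a h b.1 b.2.1
    ⟨w, b.1, b.2.1, ((H A).2.2 B fun s d => (e s ((H A).2.1 s d)).symm).1.trans b.2.2⟩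

theorem vx_iff {D : Set L} (hD : InNP A D) :
    ∃ c, ∀ᶠ a in atTop, ∀ h x, x.length ≤ bd a → (A ∈ Acc (VX c a h x) ↔ zx A a h x ∈ D) := by
  obtain ⟨S, hS, eS⟩ := hD
  obtain ⟨h1, k, hk⟩ := npRel_elim hS
  obtain ⟨g, hg, e⟩ := h1.app (PF.v0 (n := 0)).fst PF.v0.snd
  have h2 : FP1 A fun z => g fun _ => z := PF.fp1 (hg.of_eq fun σ => hg.1 _ _ fun i hi => by
    obtain rfl : i = 0 := by omega
    rfl)
  obtain ⟨c, j, H⟩ := exists_code h2
  refine ⟨c, ?_⟩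
  filter_upwards [eventually_ge_atTop (4 * j + 3 * k + 1)] with a ha h x hx
  rw [eS]
  refine exists_congr fun w => ?_
  have h3 : (zx A a h x).length ≤ 2 ^ a := List.length_take_le _ _
  have h4 : 1 ≤ 2 ^ a := Nat.one_le_two_pow
  have h5 : 2 ^ a ≤ 2 ^ a ^ 2 := Nat.pow_le_pow_right (by omega) (by nlinarith)
  have h6 : w.length ≤ 2 ^ a ^ 2 → (univ A (pr c (un (2 ^ a ^ 3))) (pr (zx A a h x) w) = [true] ↔
      S (zx A a h x) w) := fun hw => by
    rw [H, ← e]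
    · simp
    · rw [pr_length, un_length]
      calc _ ≤ (2 ^ a ^ 2 * 2 ^ 3) ^ j := Nat.pow_le_pow_left (by omega) j
        _ = 2 ^ ((a ^ 2 + 3) * j) := by rw [← pow_add, ← pow_mul]
        _ ≤ _ := Nat.pow_le_pow_right (by omega) (by
          have : 1 ≤ a ^ 2 := Nat.one_le_pow _ _ (by omega)
          nlinarith)
  refine ⟨fun b => (h6 b.2.1).1 b.2.2, fun b => ?_⟩
  have hw : w.length ≤ 2 ^ a ^ 2 := (hk _ _ b).trans (calc
    _ ≤ (2 ^ a * 2 ^ 2) ^ k := Nat.pow_le_pow_left (by omega) k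
    _ = 2 ^ ((a + 2) * k) := by rw [← pow_add, ← pow_mul]
    _ ≤ _ := Nat.pow_le_pow_right (by omega) (by nlinarith))
  exact ⟨hx, hw, (h6 hw).2 b⟩

theorem zx_eq {f : L → L} (hf : FP1 A f) : ∃ c, ∀ᶠ a in atTop, ∀ h x, code h = c →
    x.length ≤ (a + 1) * (a ^ 4 + 1) → zx A a h x = f (pr (un a) x) := by
  obtain ⟨c, j, H⟩ := exists_code hf
  obtain ⟨k, hk⟩ := fp1_len hf
  refine ⟨c, ?_⟩
  filter_upwards [pol_le (5 * j), pol_le (5 * k)] with a h1 h2 h x e l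
  have h3 : (pr (un a) x).length + 2 ≤ (a + 2) ^ 5 := by
    rw [pr_length, un_length]
    nlinarith [Nat.zero_le (a ^ 4), Nat.zero_le (a ^ 3), Nat.zero_le (a ^ 2)]
  rw [pow_mul] at h1 h2
  rw [zx, e, H _ _ (by rw [un_length]; exact (Nat.pow_le_pow_left h3 j).trans h1),
    List.take_of_length_le ((hk _).trans ((Nat.pow_le_pow_left h3 k).trans h2))]

theorem BF.ex2 {Ψ : ℕ → ℕ → L → Prop} (H : BF A Ψ)
    (hb : ∀ a h x y, Ψ a h (pr x y) → 2 ^ (y.length + 1) ≤ nx a) :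
    BF A fun a h x => ∃ y, Ψ a h (pr x y) := by
  obtain ⟨R, h1, h2⟩ := H
  refine ⟨fun q x => ¬ ∀ j < (fst q).length, ¬ R (fst (pr q x)) (pr (snd (pr q x))
    (nxt^[(un j).length] [])), (PD.ball (R := fun z u => ¬ R (fst z) (pr (snd z) (nxt^[u.length] [])))
      (h1.app PF.v0.fst (PF.v0.snd.pr (pf_enum PF.v1))).not (PF.v0.pr PF.v1) PF.v0.fst).not,
    fun p a h x l => ?_⟩
  simp only [fst_pr, snd_pr, un_length, h2 p a h _ l, not_forall, not_not]
  refine ⟨fun ⟨_, _, b⟩ => ⟨_, b⟩, fun ⟨y, b⟩ => ?_⟩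
  obtain ⟨j, c, rfl⟩ := exists_index y
  exact ⟨j, by have := hb _ _ _ _ b; omega, b⟩

theorem bf_len : BF A fun a _ x => x.length ≤ bd a := by
  have ha : PF A 2 fun σ => fst (snd (σ 0)) := PF.v0.snd.fst
  refine ⟨fun q x => x.length ≤ (ee (fst q) (fst (snd q)) ++ ee (fst q) (un ((fst (snd q)).length ^ 2)) ++
    ee (fst q) (un ((fst (snd q)).length ^ 3))).length, PF.v1.le (((pf_ee PF.v0.fst ha).append
      (pf_ee PF.v0.fst (ha.pw 2))).append (pf_ee PF.v0.fst (ha.pw 3))), fun p a h w l => ?_⟩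
  have := nx_ge a
  simp only [fst_pr, snd_pr, un_length, ee_eq (show 1 ≤ p.length by omega), List.length_append,
    min_eq_left (show 2 ^ a ≤ p.length by omega), min_eq_left (show 2 ^ a ^ 2 ≤ p.length by omega),
    min_eq_left (show 2 ^ a ^ 3 ≤ p.length by omega), bd]

theorem bf_vx (c : L) : BF A fun a h x => A ∈ Acc (VX c a h x) := by
  have ha : PF A 2 fun σ => fst (snd (σ 0)) := PF.v0.snd.fst
  have h1 := pf_ee PF.v0.fst ha
  have h2 : BF A fun a h u => (snd u).length ≤ 2 ^ a ^ 2 ∧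
      univ A (pr c (un (2 ^ a ^ 3))) (pr (zx A a h (fst u)) (snd u)) = [true] := by
    refine ⟨fun q u => (snd u).length ≤ (ee (fst q) (un ((fst (snd q)).length ^ 2))).length ∧
      univ A (pr c (ee (fst q) (un ((fst (snd q)).length ^ 3))))
        (pr ((univ A (pr (fst (nxt^[(snd (snd q)).length] [])) (ee (fst q) (fst (snd q))))
          (pr (fst (snd q)) (fst u))).take (ee (fst q) (fst (snd q))).length) (snd u)) = [true],
      (PF.v1.snd.le (pf_ee PF.v0.fst (ha.pw 2))).and ((((PF.const c).pr (pf_ee PF.v0.fst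
        (ha.pw 3))).univ ((h1.take (((pf_enum PF.v0.snd.snd).fst.pr h1).univ
          (ha.pr PF.v1.fst))).pr PF.v1.snd)).eq (PF.const [true])), fun p a h w l => ?_⟩
    have := nx_ge a
    simp only [fst_pr, snd_pr, un_length, ee_eq (show 1 ≤ p.length by omega),
      min_eq_left (show 2 ^ a ≤ p.length by omega), min_eq_left (show 2 ^ a ^ 2 ≤ p.length by omega),
      min_eq_left (show 2 ^ a ^ 3 ≤ p.length by omega)]
    rfl
  refine (bf_len.and (h2.ex2 fun a _ _ _ b => Nat.pow_le_pow_right (by omega) ?_)).of_iff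
    fun a h x => ?_
  · have := b.1
    have := nx_ge a
    rw [snd_pr] at *
    omega
  · simp only [fst_pr, snd_pr, Acc, VX, Set.mem_ofPred_eq, exists_and_left]

variable {n : ℕ} {f g p q : St → L}

theorem pf_ss (hf : PF A n f) (hg : PF A n g) : PF A n fun σ => un (ss (f σ).length (g σ).length) :=
  (pf_ee (hf.cons true) ((PF.const (un 4)).mul (hg.append (PF.const (un 4))))).of_eq fun σ => by
    rw [ee_eq (by simp)]; simp [ss]

theorem pd_val (hf : PF A n f) (hg : PF A n g) (hp : PF A n p) :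
    PD A n fun σ => A ∈ Val (f σ).length (g σ).length (p σ) :=
  ((pd_srt ((hf.pw 4).cons true) (pf_ss hf hg) hp).and ((PD.ball (R := fun z u =>
    A ∈ Z (blk (fst z).length (ch (fst (snd z)).length (snd (snd z)) u.length)))
    (pd_zero PF.v0.fst (pf_ch PF.v0.snd.fst PF.v0.snd.snd PF.v1))
    (((hg.append (PF.const (un 3))).drop (hf.pw 4)).pr (((hf.pw 4).cons true).pr hp))
    (pf_ss hf hg)).and (pd_zero ((((PF.const (un 5)).mul (hg.append (PF.const (un 4)))).cons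
      true).cons true) hp))).of_iff fun σ => by simp [Val]

theorem pd_hid (b : Bool) (hf : PF A n f) (hg : PF A n g) (hp : PF A n p) (hq : PF A n q) :
    PD A n fun σ => A ∈ Hid b (f σ).length (g σ).length (p σ) (q σ) :=
  ((pd_val hf hg hp).and ((DR.app (R := fun z y => y ∈ side b ((fst z).length ^ 4)) (pd_side b)
    (hf.pr hf) hq).and ((pd_zero ((hg.append (PF.const (un 3))).drop (hf.pw 4)) hq).and
      (PD.ball (R := fun z u => ¬ ch (fst (snd z)).length (snd (snd z)) u.length = fst z)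
        ((pf_ch PF.v0.snd.fst PF.v0.snd.snd PF.v1).eq PF.v0.fst).not
        (hq.pr (((hf.pw 4).cons true).pr hp)) (pf_ss hf hg))))).of_iff fun σ => by
    rw [Hid, Set.mem_ofPred_eq]; simp

theorem bf_hid (b : Bool) : BF A fun a h x => ∃ y, A ∈ Hid b a h x y := by
  have h1 : BF A fun a h u => A ∈ Hid b a h (fst u) (snd u) :=
    ⟨fun z u => A ∈ Hid b (fst (snd z)).length (snd (snd z)).length (fst u) (snd u),
      pd_hid b PF.v0.snd.fst PF.v0.snd.snd PF.v1.fst PF.v1.snd, fun p a h y _ => by simp⟩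
  refine (h1.ex2 fun a _ _ _ c => Nat.pow_le_pow_right (by omega) ?_).of_iff fun _ _ _ => by simp
  have := len_side _ c.2.1
  have := nx_ge a
  rw [snd_pr] at *
  omega

end Pool.Agent.Lib.MP_2c6a5a_lc.RO
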