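import Pool.Agent.Lib.MP_2c6a5a_lc.RO.Ineq

/-! The set of zero blocks: counting, fibres and tails. -/

namespace Pool.Agent.Lib.MP_2c6a5a_lc.RO

open MeasureTheory Set
open scoped ENNReal

theorem sum_le_count {ι : Type*} (J : Finset ι) (G : ι → Set Om) (hG : ∀ j ∈ J, FD (G j))
    {E : Set Om} (hE : FD E) (t : ℕ) (h0 : ∀ j ∈ J, G j ⊆ E)
    (h : ∀ A ∈ E, ∃ S : Finset ι, S.card ≤ t ∧ ∀ j ∈ J, A ∈ G j → j ∈ S) :
    ∑ j ∈ J, mu (G j) ≤ t * mu E := by
  rw [sum_eq_count J G hG, ← lintegral_indicator_one hE.meas, ← lintegral_const_mul _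
    (measurable_one.indicator hE.meas)]
  refine lintegral_mono fun A => ?_
  by_cases c : A ∈ E
  · simp only [indicator_of_mem c, Pi.one_apply, mul_one]
    obtain ⟨S, h1, h2⟩ := h A c
    exact Nat.cast_le.2 (le_trans (Finset.card_le_card fun j d => by
      rw [@Finset.mem_filter _ _ (_)] at d
      exact h2 j d.1 d.2) h1)
  · rw [(@Finset.filter_eq_empty_iff _ _ (_) _).2 fun j a b => c (h0 j a b)]
    simp

theorem le_sum_count {ι : Type*} (J : Finset ι) (G : ι → Set Om) (hG : ∀ j ∈ J, FD (G j))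
    {E : Set Om} (hE : FD E) (t : ℕ)
    (h : ∀ A ∈ E, ∃ S : Finset ι, t ≤ S.card ∧ ∀ j ∈ S, j ∈ J ∧ A ∈ G j) :
    t * mu E ≤ ∑ j ∈ J, mu (G j) :=
  le_sum_of_count J G hG hE t fun A c =>
    let ⟨_, h1, h2⟩ := h A c
    h1.trans (Finset.card_le_card fun j d => (@Finset.mem_filter _ _ (_) _ _).2 (h2 j d))

open Classical in
theorem bonf {ι : Type*} (J : Finset ι) (G : ι → Set Om) (hG : ∀ j ∈ J, FD (G j))
    {E : Set Om} (h0 : ∀ j ∈ J, G j ⊆ E) :
    ∑ j ∈ J, mu (G j) ≤ mu E + ∑ p ∈ J.offDiag, mu (G p.1 ∩ G p.2) := by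
  have hm : MeasurableSet (⋃ j ∈ J, G j) := Finset.measurableSet_biUnion _ fun j a => (hG j a).meas
  refine le_trans ?_ (add_le_add (measure_mono (iUnion₂_subset h0)) le_rfl)
  rw [sum_eq_count J G hG, sum_eq_count J.offDiag _ fun p a => (hG _ (Finset.mem_offDiag.1 a).1).inter
    (hG _ (Finset.mem_offDiag.1 a).2.1), ← lintegral_indicator_one hm,
    ← lintegral_add_left (measurable_one.indicator hm)]
  refine lintegral_mono fun A => ?_
  have e : ∀ i, (@Finset.filter _ (fun p : ι × ι => A ∈ G p.1 ∩ G p.2) i J.offDiag) =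
      (J.filter fun j => A ∈ G j).offDiag := fun i => by
    ext p
    simp only [Finset.mem_filter, Finset.mem_offDiag, mem_inter_iff]
    tauto
  by_cases c : A ∈ ⋃ j ∈ J, G j
  · simp only [indicator_of_mem c, Pi.one_apply]
    rw [e, Finset.offDiag_card]
    generalize (J.filter fun j => A ∈ G j).card = N
    have : N ≤ 1 + (N * N - N) := by
      rcases N with _ | _ | N
      · omega
      · omega
      · have : N + 1 + 1 + (N + 1) ≤ (N + 1 + 1) * (N + 1 + 1) := by nlinarith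
        omega
    exact_mod_cast this
  · rw [Finset.filter_eq_empty_iff.2 fun j a b => c (mem_biUnion a b)]
    simp

open Classical in
/-- the indices of the zero blocks -/
noncomputable def zs (l : ℕ) (J : Finset L) (A : Om) : Finset L :=
  J.filter fun y => A ∈ Z (blk l y)

variable {l m a j : ℕ} {J X : Finset L} {y : L} {A B : Om} {P : Set Om}

theorem mem_zs : y ∈ zs l J A ↔ y ∈ J ∧ A ∈ Z (blk l y) := by simp [zs]

theorem zs_sub : zs l J A ⊆ J := fun _ c => (mem_zs.1 c).1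

theorem zs_congr (e : ∀ s ∈ reg l J, A s = B s) : zs l J A = zs l J B := by
  ext y
  simp only [mem_zs]
  exact and_congr_right fun c => (dep_Z _).iff fun s d => e s ⟨y, c, d⟩

theorem dep_zs (p : Finset L → Prop) : Dep (reg l J) {A | p (zs l J A)} := fun A B e b => by
  rwa [mem_ofPred_eq, ← zs_congr e]

theorem fd_zs (p : Finset L → Prop) : FD {A | p (zs l J A)} :=
  ⟨J.biUnion (blk l), (dep_zs p).mono fun s ⟨y, a, b⟩ => by simpa using ⟨y, a, b⟩⟩

theorem reg_lo (hJ : Len m J) (ha : m + l ≤ a) : reg l J ⊆ lo a :=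
  fun _ ⟨y, c, d⟩ => lt_of_lt_of_le (hJ y c ▸ (blk_len d).2) ha

theorem reg_hi (hJ : Len m J) (ha : a ≤ m) : reg l J ⊆ (lo a)ᶜ :=
  fun _ ⟨y, c, d⟩ => not_lt.2 (ha.trans (hJ y c ▸ (blk_len d).1))

theorem zs_zr (hJ : Len m J) (hy : y ∈ J) : zs l J (zr (blk l y) A) = insert y (zs l J A) := by
  ext z
  simp only [mem_zs, Finset.mem_insert]
  by_cases c : z = y
  · subst c
    simp [hy, zr_mem]
  · simp only [c, false_or]
    exact and_congr_right fun d => Dep.zr_iff
      ((dep_Z _).mono fun s e f => c (blk_eq ((hJ z d).trans (hJ y hy).symm) e f))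

theorem fd_biUnion {ι : Type*} (I : Finset ι) {G : ι → Set Om} (hG : ∀ i ∈ I, FD (G i)) :
    FD (⋃ i ∈ I, G i) := by
  classical
  induction I using Finset.induction_on with
  | empty => simpa using fd_univ.compl
  | insert i I _ ih =>
    rw [Finset.set_biUnion_insert]
    exact (hG i (by simp)).union (ih fun j c => hG j (by simp [c]))

theorem fib_eq (E : Finset L → Set Om) :
    {A | A ∈ E (zs l J A)} = ⋃ X ∈ J.powerset, {A | zs l J A = X} ∩ E X := by
  ext A
  simp only [mem_ofPred_eq, mem_iUnion, Finset.mem_powerset, mem_inter_iff]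
  exact ⟨fun c => ⟨_, zs_sub, rfl, c⟩, fun ⟨X, _, d, c⟩ => d ▸ c⟩

theorem fd_fib {E : Finset L → Set Om} (hE : ∀ X, FD (E X)) : FD {A | A ∈ E (zs l J A)} := by
  rw [fib_eq]
  exact fd_biUnion _ fun X _ => (fd_zs (· = X)).inter (hE X)

theorem mu_fib {E : Finset L → Set Om} (hE : ∀ X, FD (E X)) :
    mu {A | A ∈ E (zs l J A)} = ∑ X ∈ J.powerset, mu ({A | zs l J A = X} ∩ E X) := by
  rw [fib_eq]
  exact measure_biUnion_finset (fun X _ Y _ n => disjoint_left.2 fun A c d =>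
    n (Eq.trans (Eq.symm c.1) d.1)) fun X _ => ((fd_zs (· = X)).inter (hE X)).meas

theorem fib_mul {E E' : Finset L → Set Om} (hE : ∀ X, FD (E X)) (hE' : ∀ X, FD (E' X)) (c : ℝ≥0∞)
    (h : ∀ X ⊆ J, mu ({A | zs l J A = X} ∩ E X) = c * mu ({A | zs l J A = X} ∩ E' X)) :
    mu {A | A ∈ E (zs l J A)} = c * mu {A | A ∈ E' (zs l J A)} := by
  rw [mu_fib hE, mu_fib hE', Finset.mul_sum]
  exact Finset.sum_congr rfl fun X a => h X (Finset.mem_powerset.1 a)

theorem plant_zs (hJ : Len m J) (hP : Dep (lo a) P) (ha : a ≤ m) (hy : y ∈ J)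
    (p : Finset L → Prop) : mu (Z (blk l y) ∩ (P ∩ {A | p (zs l J A)})) =
      2⁻¹ ^ l * mu (P ∩ {A | p (insert y (zs l J A))}) := by
  rw [plant _ (hP.fd.inter (fd_zs p)), card_blk]
  congr 2
  ext A
  simp only [mem_preimage, mem_inter_iff, mem_ofPred_eq, zs_zr hJ hy,
    (hP.out (hJ y hy ▸ ha)).zr_iff]

theorem tail_up (hJ : Len m J) (hP : Dep (lo a) P) (ha : a ≤ m) (j : ℕ) :
    (j + 1 : ℕ) * mu (P ∩ {A | j + 1 ≤ (zs l J A).card}) ≤
      2⁻¹ ^ l * J.card * mu (P ∩ {A | j ≤ (zs l J A).card}) := by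
  have f := hP.fd.inter (fd_zs (l := l) (J := J) fun X => j + 1 ≤ X.card)
  refine (le_sum_count J (fun y => Z (blk l y) ∩ (P ∩ {A | j + 1 ≤ (zs l J A).card}))
    (fun y _ => (fd_Z _).inter f) f _ fun A c =>
      ⟨_, c.2, fun y d => ⟨(mem_zs.1 d).1, (mem_zs.1 d).2, c⟩⟩).trans ?_
  rw [mul_comm (2⁻¹ ^ l), mul_assoc, ← nsmul_eq_mul]
  refine Finset.sum_le_card_nsmul _ _ _ fun y c => ?_
  rw [plant_zs hJ hP ha c fun X => j + 1 ≤ X.card]
  refine mul_le_mul_right (measure_mono (inter_subset_inter_right _ fun A d => ?_)) _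
  exact Nat.le_of_succ_le_succ (le_trans d (Finset.card_insert_le _ _))

theorem tail_down (hJ : Len m J) (j : ℕ) (hj : 2 ^ l + j ≤ J.card) :
    mu {A | (zs l J A).card = j} ≤ (j + 1 : ℕ) * mu {A | (zs l J A).card = j + 1} := by
  have f := fd_zs (l := l) (J := J) fun X => X.card = j + 1
  have h1 := sum_le_count J (fun y => Z (blk l y) ∩ (univ ∩ {A | (zs l J A).card = j + 1}))
    (fun y _ => (fd_Z _).inter (fd_univ.inter f)) f (j + 1) (fun y _ A c => c.2.2) fun A c =>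
      ⟨_, le_of_eq c, fun y d e => mem_zs.2 ⟨d, e.1⟩⟩
  rw [Finset.sum_congr rfl fun y c => plant_zs (a := 0) hJ dep_univ (Nat.zero_le _) c
    fun X => X.card = j + 1, ← Finset.mul_sum] at h1
  have h2 := le_sum_count J (fun y => univ ∩ {A | (insert y (zs l J A)).card = j + 1})
    (fun y _ => fd_univ.inter (fd_zs fun X => (insert y X).card = j + 1))
    (fd_zs (l := l) (J := J) fun X => X.card = j) (2 ^ l) fun A c => by
      have c' : (zs l J A).card = j := c
      refine ⟨J \ zs l J A, ?_, fun y d => ⟨(Finset.mem_sdiff.1 d).1, trivial, ?_⟩⟩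
      · rw [Finset.card_sdiff_of_subset zs_sub]
        omega
      · exact (Finset.card_insert_of_notMem (Finset.mem_sdiff.1 d).2).trans (by rw [c'])
  refine le_trans ?_ ((mul_le_mul_right h2 _).trans h1)
  rw [← mul_assoc, Nat.cast_pow, Nat.cast_ofNat, half_pow, one_mul]

theorem tail_fact (hJ : Len m J) (j : ℕ) (hj : 2 ^ l + j ≤ J.card) :
    mu (Has l J)ᶜ ≤ j.factorial * mu {A | (zs l J A).card = j} := by
  induction j with
  | zero =>
    simp only [Nat.factorial_zero, Nat.cast_one, one_mul]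
    exact measure_mono fun A c => Finset.card_eq_zero.2
      (Finset.eq_empty_of_forall_notMem fun y d => c ⟨y, mem_zs.1 d⟩)
  | succ j ih =>
    refine (ih (by omega)).trans ((mul_le_mul_right (tail_down hJ j (by omega)) _).trans_eq ?_)
    rw [Nat.factorial_succ, Nat.cast_mul]
    ring

end Pool.Agent.Lib.MP_2c6a5a_lc.RO
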